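import Mathlib
import Pool.Agent.KS6_82.Kah.Moi
import Pool.Agent.KS6_82.Kah.MoiBase

/-!
# Proper maps with Moishezon fibres which are not locally Moishezon: all dimensions

(1) Let `g : X → B` be a proper map, with `X` a nonsingular closed hypersurface of a complex
manifold, all of whose fibres are Moishezon, but which is not Moishezon over any neighbourhood of
the origin. Then for every proper map `h : K → B'` with Moishezon fibres the product
`g × h : X × K → B × B'` has the same properties.

(2) For all `m ≥ 2` and `f ≥ 1` there is such a map `g : X → ℂ^m` with `dim X = m + f`.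
-/

set_option autoImplicit false

open Filter Metric Set Topology
open scoped Manifold ContDiff

namespace Pool.Agent.Results.MP_795b03_ag.AllDimensions

open Pool.Agent.Y758.MM (IsSmoothHypersurface HomCoord MoishezonOver)
open Pool.Agent.KS6_82.Kah

/-- `X` is a nonsingular closed hypersurface of the complex manifold `M`, the restriction of `g` to
`X` is proper, holomorphic and surjective, the parts of `X` over the balls around the origin are connected, all
fibres are Moishezon, but `g` is not Moishezon over any neighbourhood of the origin. -/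
structure IsCounterexample (E : Type) [NormedAddCommGroup E] [NormedSpace ℂ E] {M : Type}
    [TopologicalSpace M] [ChartedSpace E M] (X : Set M) {B : Type} [NormedAddCommGroup B]
    [NormedSpace ℂ B] (g : M → B) : Prop where
  smooth : IsSmoothHypersurface E X
  holomorphic : MDifferentiable 𝓘(ℂ, E) 𝓘(ℂ, B) g
  proper : ∀ C : Set B, IsCompact C → IsCompact (X ∩ g ⁻¹' C)
  surjective : ∀ s : B, ∃ m ∈ X, g m = s
  connected : ∀ ε : ℝ, 0 < ε → IsConnected (X ∩ g ⁻¹' ball (0 : B) ε)
  fibres : ∀ s : B, MoishezonOver E (fun _ : M => ()) (X ∩ g ⁻¹' {s})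
  notMoishezon : ∀ U : Set B, IsOpen U → (0 : B) ∈ U → ¬ MoishezonOver E g (X ∩ g ⁻¹' U)

/-- `h : K → B` is a proper surjective holomorphic map from a complex manifold, the parts of `K` over the balls
around the origin are connected, and all fibres are Moishezon. -/
structure HasMoishezonFibres (F : Type) [NormedAddCommGroup F] [NormedSpace ℂ F] {K : Type}
    [TopologicalSpace K] [ChartedSpace F K] {B : Type} [NormedAddCommGroup B]
    [NormedSpace ℂ B] (h : K → B) : Prop where
  holomorphic : MDifferentiable 𝓘(ℂ, F) 𝓘(ℂ, B) h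
  proper : ∀ C : Set B, IsCompact C → IsCompact (h ⁻¹' C)
  surjective : Function.Surjective h
  connected : ∀ ε : ℝ, 0 < ε → IsConnected (h ⁻¹' ball (0 : B) ε)
  fibres : ∀ s : B, MoishezonOver F (fun _ : K => ()) (h ⁻¹' {s})

variable {E F : Type} [NormedAddCommGroup E] [NormedSpace ℂ E]
  [NormedAddCommGroup F] [NormedSpace ℂ F] [FiniteDimensional ℂ F]
variable {M K : Type} [TopologicalSpace M] [SecondCountableTopology M] [ChartedSpace E M]
  [TopologicalSpace K] [T2Space K] [ChartedSpace F K]
variable {B B' : Type} [NormedAddCommGroup B] [NormedSpace ℂ B] [NormedAddCommGroup B']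
  [NormedSpace ℂ B']

theorem prod_counterexample {X : Set M} {g : M → B} {h : K → B'} (hg : IsCounterexample E X g)
    (hh : HasMoishezonFibres F h) :
    IsCounterexample (E × F) (X ×ˢ (univ : Set K)) (fun p : M × K => (g p.1, h p.2)) := by
  have : ProperSpace F := FiniteDimensional.proper ℂ F
  have : LocallyCompactSpace K := ChartedSpace.locallyCompactSpace F K
  have hgc : Continuous g := hg.holomorphic.continuous
  have hhc : Continuous h := hh.holomorphic.continuous
  have hpc : Continuous (fun p : M × K => (g p.1, h p.2)) :=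
    (hgc.comp continuous_fst).prodMk (hhc.comp continuous_snd)
  refine ⟨smooth_prod hg.smooth, ?_, ?_, ?_, ?_, ?_, ?_⟩
  · have h1 : MDifferentiable 𝓘(ℂ, E × F) 𝓘(ℂ, B) (fun p : M × K => g p.1) :=
      hg.holomorphic.comp mdiff_fst
    have h2 : MDifferentiable 𝓘(ℂ, E × F) 𝓘(ℂ, B') (fun p : M × K => h p.2) :=
      hh.holomorphic.comp mdiff_snd
    have h3 := h1.prodMk_space h2
    exact h3
  · intro C hC
    have h1 : IsCompact ((X ∩ g ⁻¹' (Prod.fst '' C)) ×ˢ (h ⁻¹' (Prod.snd '' C))) :=
      (hg.proper _ (hC.image continuous_fst)).prod (hh.proper _ (hC.image continuous_snd))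
    have h2 : (X ×ˢ (univ : Set K)) ∩ (fun p : M × K => (g p.1, h p.2)) ⁻¹' C =
        ((X ∩ g ⁻¹' (Prod.fst '' C)) ×ˢ (h ⁻¹' (Prod.snd '' C))) ∩
          (fun p : M × K => (g p.1, h p.2)) ⁻¹' C := by
      ext ⟨x, k⟩
      constructor
      · rintro ⟨⟨hx, -⟩, hC'⟩
        exact ⟨⟨⟨hx, ⟨_, hC', rfl⟩⟩, ⟨_, hC', rfl⟩⟩, hC'⟩
      · rintro ⟨⟨⟨hx, -⟩, -⟩, hC'⟩
        exact ⟨⟨hx, trivial⟩, hC'⟩
    rw [h2]
    exact h1.inter_right (hC.isClosed.preimage hpc)
  · rintro ⟨s, t⟩
    obtain ⟨m, hm, rfl⟩ := hg.surjective s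
    obtain ⟨k, rfl⟩ := hh.surjective t
    exact ⟨(m, k), ⟨hm, trivial⟩, rfl⟩
  · intro ε hε
    have h1 := (hg.connected ε hε).prod (hh.connected ε hε)
    convert h1 using 1
    ext ⟨x, k⟩
    simp only [mem_inter_iff, mem_prod, mem_univ, and_true, mem_preimage, mem_ball_zero_iff,
      Prod.norm_mk, max_lt_iff]
    tauto
  · rintro ⟨s, t⟩
    have h1 := moi_mono (g' := fun _ : M × K => ()) (moi_prod (hg.fibres s) (hh.fibres t))
      fun _ _ _ => rfl
    convert h1 using 1
    ext ⟨x, k⟩
    simp only [mem_inter_iff, mem_prod, mem_univ, and_true, mem_preimage, mem_singleton_iff,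
      Prod.mk.injEq]
    tauto
  · intro U hU h0 hm
    obtain ⟨U₁, h1, h2, h3⟩ := moi_slice hgc hhc hU (b := (0 : B)) (b' := (0 : B')) h0 (by
      intro V hV h0V
      obtain ⟨ε, hε, hb⟩ := Metric.isOpen_iff.1 hV 0 h0V
      exact (hh.connected ε hε).nonempty.mono (preimage_mono hb)) hm
    exact hg.notMoishezon U₁ h1 h2 h3


/-- The projection `P^k × ℂ^l → ℂ^l`. -/
theorem proj_family (k l : ℕ) : HasMoishezonFibres ((Fin k → ℂ) × (Fin l → ℂ))
    (Prod.snd : PP k × (Fin l → ℂ) → (Fin l → ℂ)) where
  holomorphic := mdiff_snd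
  proper := by
    intro C hC
    have h1 : (Prod.snd ⁻¹' C : Set (PP k × (Fin l → ℂ))) = univ ×ˢ C := by ext; simp
    rw [h1]
    exact isCompact_univ.prod hC
  surjective := fun s => ⟨(pbwd 0 0, s), rfl⟩
  connected := by
    intro ε hε
    have h1 : (Prod.snd ⁻¹' (ball 0 ε) : Set (PP k × (Fin l → ℂ))) = univ ×ˢ ball 0 ε := by
      ext; simp
    rw [h1]
    exact isConnected_univ.prod ((convex_ball (0 : Fin l → ℂ) ε).isConnected
      ⟨0, mem_ball_self hε⟩)
  fibres := by
    intro s
    have h1 : (Prod.snd ⁻¹' {s} : Set (PP k × (Fin l → ℂ))) = univ ×ˢ {s} := by ext; simp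
    rw [h1]
    exact moi_mono (moi_prod (moi_PP k) (moi_point s)) fun _ _ _ => rfl

/-- (1) The product of a counterexample to Q1 with any proper map with Moishezon fibres is a
counterexample. (2) For all `m ≥ 2` and `f ≥ 1` there is a counterexample `g : X → ℂ^m` with
`dim X = m + f`. -/
theorem result :
    (∀ (E F : Type) [NormedAddCommGroup E] [NormedSpace ℂ E] [NormedAddCommGroup F]
      [NormedSpace ℂ F] [FiniteDimensional ℂ F] (M K : Type) [TopologicalSpace M]
      [SecondCountableTopology M] [ChartedSpace E M] [TopologicalSpace K] [T2Space K]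
      [ChartedSpace F K] (B B' : Type) [NormedAddCommGroup B] [NormedSpace ℂ B]
      [NormedAddCommGroup B'] [NormedSpace ℂ B'] (X : Set M) (g : M → B) (h : K → B'),
      IsCounterexample E X g → HasMoishezonFibres F h →
        IsCounterexample (E × F) (X ×ˢ (univ : Set K)) (fun p : M × K => (g p.1, h p.2))) ∧
    ∀ m f : ℕ, 2 ≤ m → 1 ≤ f → ∃ (E : Type) (_ : NormedAddCommGroup E) (_ : NormedSpace ℂ E)
      (B : Type) (_ : NormedAddCommGroup B) (_ : NormedSpace ℂ B) (M : Type)
      (_ : TopologicalSpace M) (_ : T2Space M) (_ : SecondCountableTopology M)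
      (_ : ChartedSpace E M) (_ : IsManifold 𝓘(ℂ, E) ω M) (X : Set M) (g : M → B),
      Module.finrank ℂ E = m + f + 1 ∧ Module.finrank ℂ B = m ∧ IsCounterexample E X g := by
  constructor
  · intro E F _ _ _ _ _ M K _ _ _ _ _ _ B B' _ _ _ _ X g h
    exact prod_counterexample
  · intro m f hm hf
    obtain ⟨l, rfl⟩ := Nat.exists_eq_add_of_le hm
    obtain ⟨k, rfl⟩ := Nat.exists_eq_add_of_le hf
    obtain ⟨M, i1, i2, i3, i4, i5, X, g, h1, h2, h3, h4, h5, h6, h7⟩ := main_surj
    refine ⟨(ℂ × ℂ × ℂ × ℂ) × ((Fin k → ℂ) × (Fin l → ℂ)), inferInstance, inferInstance,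
      (ℂ × ℂ) × (Fin l → ℂ), inferInstance, inferInstance, M × (PP k × (Fin l → ℂ)),
      inferInstance, inferInstance, inferInstance, inferInstance, inferInstance,
      X ×ˢ univ, fun p => (g p.1, p.2.2), ?_, ?_,
      prod_counterexample ⟨h1, h2, h3, h4, h5, h6, h7⟩ (proj_family k l)⟩
    · simp only [Module.finrank_prod, Module.finrank_self, Module.finrank_fin_fun]
      ring
    · simp only [Module.finrank_prod, Module.finrank_self, Module.finrank_fin_fun]

end Pool.Agent.Results.MP_795b03_ag.AllDimensions
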